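import Mathlib
import Pool.Agent.H577R3.RM.Stmts

set_option autoImplicit false

/-! Task LIN of the project RANDMETAB. -/

namespace Pool.Agent.H66R3.RM

open Pool.Agent.H577R3.RM Filter Topology

/-- fibre counting -/
theorem count_step {A B : Type} [Finite A] [Finite B] (P : B → Prop) (R : A → B → Prop) (Q : ℕ)
    (h : ∀ b, ¬ P b → Q * Nat.card {a // R a b} ≤ Nat.card A) :
    Q * Nat.card {p : A × B // R p.1 p.2} ≤
      Q * Nat.card A * Nat.card {b // P b} + Nat.card A * Nat.card B := by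
  classical
  haveI := Fintype.ofFinite A
  haveI := Fintype.ofFinite B
  have e : {p : A × B // R p.1 p.2} ≃ Σ b : B, {a // R a b} :=
    { toFun := fun p => ⟨p.1.2, p.1.1, p.2⟩
      invFun := fun s => ⟨(s.2.1, s.1), s.2.2⟩
      left_inv := fun p => rfl
      right_inv := fun s => rfl }
  rw [Nat.card_congr e, Nat.card_sigma]
  have hP : Nat.card {b // P b} = ∑ b : B, if P b then 1 else 0 := by
    rw [Nat.card_eq_fintype_card, Fintype.card_subtype, Finset.card_filter]
  have hB : Nat.card B = ∑ _b : B, 1 := by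
    rw [Nat.card_eq_fintype_card, Fintype.card_eq_sum_ones]
  rw [hP, hB, Finset.mul_sum, Finset.mul_sum, Finset.mul_sum, ← Finset.sum_add_distrib]
  refine Finset.sum_le_sum fun b _ => ?_
  by_cases hb : P b
  · rw [if_pos hb, mul_one, mul_one]
    have h1 : Nat.card {a // R a b} ≤ Nat.card A := Finite.card_subtype_le _
    exact (Nat.mul_le_mul_left Q h1).trans (Nat.le_add_right _ _)
  · rw [if_neg hb, mul_zero, mul_one, zero_add]
    exact h b hb

/-- a vector orthogonal to few vectors -/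
theorem exists_orth {n m : ℕ} (hmn : m + 1 < n) (v : Fin m → Fin n → ℤ) (i : Fin n) :
    ∃ κ : Fin n → ℤ, κ ≠ 0 ∧ (∀ j, ∑ l, κ l * v j l = 0) ∧ κ i = 0 := by
  let A : Matrix (Fin m ⊕ Unit) (Fin n) ℤ :=
    Matrix.of (Sum.elim v (fun _ : Unit => (Pi.single i 1 : Fin n → ℤ)))
  have hc : Fintype.card (Fin m ⊕ Unit) < Fintype.card (Fin n) := by
    rw [Fintype.card_sum, Fintype.card_fin, Fintype.card_unit, Fintype.card_fin]
    exact hmn
  have hp : 0 < Fintype.card (Fin m ⊕ Unit) := by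
    rw [Fintype.card_sum, Fintype.card_fin, Fintype.card_unit]
    omega
  obtain ⟨κ, hκ, hA, -⟩ := Int.Matrix.exists_ne_zero_int_vec_norm_le A hc hp
  refine ⟨κ, hκ, fun j => ?_, ?_⟩
  · have h1 := congrFun hA (Sum.inl j)
    simp only [Matrix.mulVec, dotProduct, A, Matrix.of_apply, Sum.elim_inl, Pi.zero_apply] at h1
    rw [← h1]
    exact Finset.sum_congr rfl fun l _ => mul_comm _ _
  · have h1 := congrFun hA (Sum.inr ())
    simp only [Matrix.mulVec, dotProduct, A, Matrix.of_apply, Sum.elim_inr, Pi.zero_apply] at h1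
    rw [← h1, Finset.sum_eq_single i]
    · rw [Pi.single_eq_same, one_mul]
    · intro l _ hl
      rw [Pi.single_eq_of_ne hl, zero_mul]
    · intro h
      exact absurd (Finset.mem_univ _) h

/-- adding a vector to an independent family -/
theorem li_cons {n m : ℕ} (a : Fin n → ℤ) (v : Fin m → Fin n → ℤ) (u : Fin n → ℤ)
    (κ : Fin n → ℤ) (h : LinearIndependent ℤ (Sum.elim v (fun _ : Unit => u)))
    (hv : ∀ j, ∑ l, κ l * v j l = 0) (hu : ∑ l, κ l * u l = 0) (ha : ∑ l, κ l * a l ≠ 0) :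
    LinearIndependent ℤ (Sum.elim (Fin.cons a v : Fin (m + 1) → Fin n → ℤ) (fun _ : Unit => u)) := by
  rw [Fintype.linearIndependent_iff] at h ⊢
  intro g hg
  rw [Fintype.sum_sum_type, Fin.sum_univ_succ] at hg
  simp only [Sum.elim_inl, Sum.elim_inr, Fin.cons_zero, Fin.cons_succ] at hg
  have h0 : g (Sum.inl 0) = 0 := by
    have h1 := congrArg (fun x : Fin n → ℤ => ∑ l, κ l * x l) hg
    simp only [Pi.add_apply, Pi.smul_apply, Finset.sum_apply, smul_eq_mul, Pi.zero_apply,
      mul_zero, Finset.sum_const_zero, Finset.univ_unique, Finset.sum_singleton, mul_add,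
      Finset.sum_add_distrib] at h1
    have h2 : ∑ l, κ l * (g (Sum.inl 0) * a l) = g (Sum.inl 0) * ∑ l, κ l * a l := by
      rw [Finset.mul_sum]
      exact Finset.sum_congr rfl fun l _ => by ring
    have h3 : ∑ l, κ l * ∑ j, g (Sum.inl (Fin.succ j)) * v j l = 0 := by
      simp only [Finset.mul_sum]
      rw [Finset.sum_comm]
      refine Finset.sum_eq_zero fun j _ => ?_
      have : ∑ l, κ l * (g (Sum.inl (Fin.succ j)) * v j l) =
          g (Sum.inl (Fin.succ j)) * ∑ l, κ l * v j l := by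
        rw [Finset.mul_sum]
        exact Finset.sum_congr rfl fun l _ => by ring
      rw [this, hv j, mul_zero]
    have h4 : ∀ c : ℤ, ∑ l, κ l * (c * u l) = 0 := by
      intro c
      have : ∑ l, κ l * (c * u l) = c * ∑ l, κ l * u l := by
        rw [Finset.mul_sum]
        exact Finset.sum_congr rfl fun l _ => by ring
      rw [this, hu, mul_zero]
    rw [h2, h3, h4, add_zero, add_zero] at h1
    exact (mul_eq_zero.1 h1).resolve_right ha
  have h5 : ∑ x : Fin m ⊕ Unit, (Sum.elim (fun j => g (Sum.inl (Fin.succ j)))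
      (fun y => g (Sum.inr y)) : Fin m ⊕ Unit → ℤ) x • (Sum.elim v (fun _ : Unit => u)) x = 0 := by
    rw [Fintype.sum_sum_type]
    simp only [Sum.elim_inl, Sum.elim_inr]
    rw [h0, zero_smul, zero_add] at hg
    exact hg
  have h6 := h _ h5
  intro x
  rcases x with j | y
  · refine Fin.cases h0 (fun j => ?_) j
    exact h6 (Sum.inl j)
  · exact h6 (Sum.inr y)

/-- the bad tuples -/
def Bad {n ℓ : ℕ} (i : Fin n) (m : ℕ) (r : Fin m → RW n ℓ) : Prop :=
  ¬ LinearIndependent ℤ
    (Sum.elim (fun j => pos (r j).1 ℓ) (fun _ : Unit => (Pi.single i 1 : Fin n → ℤ)))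

theorem bound {n ℓ : ℕ} (i : Fin n) (Q : ℕ)
    (hQ : ∀ (i' : Fin n) (κ : Fin n → ℤ), κ i' ≠ 0 →
      Q * Nat.card {w : RW n ℓ // ∑ l, κ l * pos w.1 ℓ l = 0} ≤ Nat.card (RW n ℓ)) :
    ∀ m : ℕ, m + 1 ≤ n → Q * Nat.card {r : Fin m → RW n ℓ // Bad i m r} ≤
      m * Nat.card (RW n ℓ) ^ m := by
  intro m
  induction m with
  | zero =>
    intro _
    have : IsEmpty {r : Fin 0 → RW n ℓ // Bad i 0 r} := by
      refine ⟨fun r => r.2 ?_⟩
      rw [Fintype.linearIndependent_iff]
      intro g hg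
      rw [Fintype.sum_sum_type] at hg
      simp only [Finset.univ_eq_empty, Finset.sum_empty, zero_add, Sum.elim_inr,
        Finset.univ_unique, Finset.sum_singleton] at hg
      intro x
      rcases x with j | y
      · exact j.elim0
      · have h1 := congrFun hg i
        simp only [Pi.smul_apply, Pi.single_eq_same, smul_eq_mul, mul_one, Pi.zero_apply] at h1
        exact h1
    rw [Nat.card_of_isEmpty]
    simp
  | succ m ih =>
    intro hm
    have ih' := ih (by omega)
    let e : (Fin (m + 1) → RW n ℓ) ≃ RW n ℓ × (Fin m → RW n ℓ) :=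
      (Fin.consEquiv (fun _ : Fin (m + 1) => RW n ℓ)).symm
    have e' : {r : Fin (m + 1) → RW n ℓ // Bad i (m + 1) r} ≃
        {p : RW n ℓ × (Fin m → RW n ℓ) // Bad i (m + 1) (Fin.cons p.1 p.2)} := by
      refine Equiv.subtypeEquiv e (fun r => ?_)
      have : (Fin.cons (e r).1 (e r).2 : Fin (m + 1) → RW n ℓ) = r := e.symm_apply_apply r
      rw [this]
    rw [Nat.card_congr e']
    have h1 := count_step (A := RW n ℓ) (B := Fin m → RW n ℓ) (fun r => Bad i m r)
      (fun a r => Bad i (m + 1) (Fin.cons a r)) Q (by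
        intro r hr
        have hli : LinearIndependent ℤ (Sum.elim (fun j => pos (r j).1 ℓ)
          (fun _ : Unit => (Pi.single i 1 : Fin n → ℤ))) := not_not.1 hr
        obtain ⟨κ, hκ, hκv, hκi⟩ := exists_orth (by omega) (fun j => pos (r j).1 ℓ) i
        obtain ⟨i', hi'⟩ : ∃ i', κ i' ≠ 0 := by
          by_contra hc
          push Not at hc
          exact hκ (funext hc)
        refine le_trans (Nat.mul_le_mul_left Q ?_) (hQ i' κ hi')
        refine Nat.card_le_card_of_injective
          (fun a : {a // Bad i (m + 1) (Fin.cons a r)} =>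
            (⟨a.1, ?_⟩ : {w : RW n ℓ // ∑ l, κ l * pos w.1 ℓ l = 0})) ?_
        · by_contra hne
          apply a.2
          have hu : ∑ l, κ l * (Pi.single i 1 : Fin n → ℤ) l = 0 := by
            rw [Finset.sum_eq_single i]
            · rw [hκi, zero_mul]
            · intro l _ hl
              rw [Pi.single_eq_of_ne hl, mul_zero]
            · intro h
              exact absurd (Finset.mem_univ _) h
          have h2 := li_cons (pos a.1.1 ℓ) (fun j => pos (r j).1 ℓ) (Pi.single i 1) κ hli hκv hu hne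
          have h3 : (fun j => pos ((Fin.cons a.1 r : Fin (m + 1) → RW n ℓ) j).1 ℓ) =
              (Fin.cons (pos a.1.1 ℓ) (fun j => pos (r j).1 ℓ) : Fin (m + 1) → Fin n → ℤ) := by
            funext j
            refine Fin.cases ?_ (fun j => ?_) j
            · simp
            · simp
          rw [h3]
          exact h2
        · intro a b hab
          apply Subtype.ext
          exact congrArg (fun x : {w : RW n ℓ // ∑ l, κ l * pos w.1 ℓ l = 0} => x.1) hab)
    refine h1.trans ?_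
    have h4 : Nat.card (Fin m → RW n ℓ) = Nat.card (RW n ℓ) ^ m := by
      rw [Nat.card_fun, Nat.card_eq_fintype_card (α := Fin m), Fintype.card_fin]
    rw [h4]
    calc Q * Nat.card (RW n ℓ) * Nat.card {b // Bad i m b} + Nat.card (RW n ℓ) * Nat.card (RW n ℓ) ^ m
        = Nat.card (RW n ℓ) * (Q * Nat.card {b // Bad i m b}) +
          Nat.card (RW n ℓ) * Nat.card (RW n ℓ) ^ m := by ring
      _ ≤ Nat.card (RW n ℓ) * (m * Nat.card (RW n ℓ) ^ m) +
          Nat.card (RW n ℓ) * Nat.card (RW n ℓ) ^ m := by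
        exact Nat.add_le_add_right (Nat.mul_le_mul_left _ ih') _
      _ = (m + 1) * Nat.card (RW n ℓ) ^ (m + 1) := by ring

theorem taskLIN (h : TaskAC1) : TaskLIN := by
  intro n m hmn i
  obtain ⟨C, hC⟩ := h n (by omega)
  have key : ∀ Q ℓ : ℕ, 1 ≤ Q → C * Q ^ 3 ≤ ℓ →
      Q * Nat.card {r : Fin m → RW n ℓ // Bad i m r} ≤ m * Nat.card (Fin m → RW n ℓ) := by
    intro Q ℓ h1 h2
    have h3 := bound (ℓ := ℓ) i Q (fun i' κ hκ => by
      have h4 := hC Q ℓ 1 i' κ h1 h2 hκ
      rw [one_mul] at h4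
      refine le_trans (Nat.mul_le_mul_left Q ?_) h4
      refine Nat.card_le_card_of_injective
        (fun a : {w : RW n ℓ // ∑ l, κ l * pos w.1 ℓ l = 0} =>
          (⟨a.1, ?_⟩ : {w : RW n ℓ // |∑ l, κ l * pos w.1 ℓ l| < ((1 : ℕ) : ℤ) * |κ i'|})) ?_
      · rw [a.2, abs_zero, Nat.cast_one, one_mul]
        exact abs_pos.2 hκ
      · intro a b hab
        apply Subtype.ext
        exact congrArg (fun x : {w : RW n ℓ // |∑ l, κ l * pos w.1 ℓ l| <
          ((1 : ℕ) : ℤ) * |κ i'|} => x.1) hab) m (by omega)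
    rw [Nat.card_fun, Nat.card_eq_fintype_card (α := Fin m), Fintype.card_fin]
    exact h3
  rw [Metric.tendsto_atTop]
  intro ε hε
  obtain ⟨Q, hQ⟩ := exists_nat_gt ((m : ℝ) / ε)
  have hQ0 : (0 : ℝ) < Q := lt_of_le_of_lt (by positivity) hQ
  have hQ1 : 1 ≤ Q := by exact_mod_cast hQ0
  refine ⟨C * Q ^ 3, fun ℓ hℓ => ?_⟩
  have h1 := key Q ℓ hQ1 hℓ
  rw [Real.dist_eq, sub_zero, abs_of_nonneg (by positivity)]
  change (Nat.card {r : Fin m → RW n ℓ // Bad i m r} : ℝ) / Nat.card (Fin m → RW n ℓ) < ε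
  rcases Nat.eq_zero_or_pos (Nat.card (Fin m → RW n ℓ)) with h0 | h0
  · rw [h0, Nat.cast_zero, div_zero]
    exact hε
  · have h2 : (0 : ℝ) < Nat.card (Fin m → RW n ℓ) := by exact_mod_cast h0
    rw [div_lt_iff₀ h2]
    have h3 : (Q : ℝ) * Nat.card {r : Fin m → RW n ℓ // Bad i m r} ≤
        m * Nat.card (Fin m → RW n ℓ) := by exact_mod_cast h1
    rw [div_lt_iff₀ hε] at hQ
    have h4 : (Q : ℝ) * Nat.card {r : Fin m → RW n ℓ // Bad i m r} <
        Q * (ε * Nat.card (Fin m → RW n ℓ)) := by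
      calc (Q : ℝ) * Nat.card {r : Fin m → RW n ℓ // Bad i m r} ≤
          m * Nat.card (Fin m → RW n ℓ) := h3
        _ < (Q * ε) * Nat.card (Fin m → RW n ℓ) := by
          exact mul_lt_mul_of_pos_right hQ h2
        _ = _ := by ring
    exact lt_of_mul_lt_mul_left h4 hQ0.le

end Pool.Agent.H66R3.RM
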